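import Pool.Agent.Lib.MP_72e2e6_nt.P3.EN.Spec

/-!
# MP_72e2e6_nt, theorem T3p, block EN: module Clo (the difference of two near points is near `O`)
-/

set_option autoImplicit false

namespace Pool.Agent.MP72P

open Polynomial WeierstrassCurve
open Pool.Agent.MP72W (pmap)
open Pool.Agent.MP72V

open scoped Classical

private theorem clo_add {L : Type} [Field L] {w : AbsoluteValue L ℝ} (hw : IsNonarchimedean w)
    {M : ℝ} {a b : L} (ha : w a ≤ M) (hb : w b ≤ M) : w (a + b) ≤ M :=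
  (hw a b).trans (max_le ha hb)

private theorem clo_big {L : Type} [Field L] {w : AbsoluteValue L ℝ} (hw : IsNonarchimedean w)
    {M : ℝ} {u v : L} (hu : M < w u) (hv : w v ≤ M) : M < w (u - v) := by
  by_contra hcon
  push Not at hcon
  have h1 : u = (u - v) + v := by ring
  rw [h1] at hu
  exact absurd (clo_add hw hcon hv) (not_le.2 hu)

private theorem clo_two {L : Type} [Field L] (p : ℕ) [hp : Fact p.Prime] (hp2 : p ≠ 2) [CharP L p]
    (w : AbsoluteValue L ℝ) : w 2 = 1 := by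
  have h1 : ((2 : ZMod p)) ^ (p - 1) = 1 := by
    refine ZMod.pow_card_sub_one_eq_one ?_
    intro h
    have h3 : ((2 : ℕ) : ZMod p) = 0 := by exact_mod_cast h
    rw [ZMod.natCast_eq_zero_iff] at h3
    exact hp2 ((Nat.prime_dvd_prime_iff_eq hp.out Nat.prime_two).1 h3)
  have h2 : (2 : L) ^ (p - 1) = 1 := by
    have h3 := congrArg (ZMod.castHom (dvd_refl p) L) h1
    rw [map_pow, map_one, map_ofNat] at h3
    exact h3
  have h3 : w 2 ^ (p - 1) = 1 := by rw [← map_pow, h2, map_one]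
  have h4 : p - 1 ≠ 0 := by have := hp.out.two_le; omega
  exact (pow_eq_one_iff_of_nonneg (w.nonneg _) h4).1 h3

/-- `f` and `f'` are not both small. -/
private theorem clo_a {L : Type} [Field L] (w : AbsoluteValue L ℝ) (a b e : L)
    (hd : a ^ 2 * b ^ 2 - 4 * b ^ 3 - 4 * a ^ 3 * e + 18 * a * b * e - 27 * e ^ 2 ≠ 0) (M : ℝ)
    (hM : 0 ≤ M) :
    ∃ c : ℝ, 0 < c ∧ c ≤ 1 ∧ ∀ x : L, w x ≤ M → c ≤ w (x ^ 3 + a * x ^ 2 + b * x + e) ∨
      c ≤ w (3 * x ^ 2 + 2 * a * x + b) := by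
  set d := w (a ^ 2 * b ^ 2 - 4 * b ^ 3 - 4 * a ^ 3 * e + 18 * a * b * e - 27 * e ^ 2) with hdd
  have hd0 : 0 < d := w.pos hd
  set B₁ := w (18 * b - 6 * a ^ 2) * M + w (15 * a * b - 4 * a ^ 3 - 27 * e) with hB₁
  set B₂ := w (2 * a ^ 2 - 6 * b) * M ^ 2 + (w (2 * a ^ 3 - 7 * a * b + 9 * e) * M +
    w (a ^ 2 * b + 3 * a * e - 4 * b ^ 2)) with hB₂
  have hB₁0 : 0 ≤ B₁ := by positivity
  have hB₂0 : 0 ≤ B₂ := by positivity
  have hden : 0 < B₁ + B₂ + 1 := by positivity
  refine ⟨min 1 (d / (B₁ + B₂ + 1)), lt_min one_pos (by positivity), min_le_left _ _, ?_⟩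
  intro x hx
  by_contra hcon
  push Not at hcon
  obtain ⟨h1, h2⟩ := hcon
  have h1' := h1.trans_le (min_le_right _ _)
  have h2' := h2.trans_le (min_le_right _ _)
  have hx0 := w.nonneg x
  have key : a ^ 2 * b ^ 2 - 4 * b ^ 3 - 4 * a ^ 3 * e + 18 * a * b * e - 27 * e ^ 2 =
      ((18 * b - 6 * a ^ 2) * x + (15 * a * b - 4 * a ^ 3 - 27 * e)) *
        (x ^ 3 + a * x ^ 2 + b * x + e) +
      ((2 * a ^ 2 - 6 * b) * x ^ 2 + ((2 * a ^ 3 - 7 * a * b + 9 * e) * x +
        (a ^ 2 * b + 3 * a * e - 4 * b ^ 2))) * (3 * x ^ 2 + 2 * a * x + b) := by ring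
  have e1 : w ((18 * b - 6 * a ^ 2) * x + (15 * a * b - 4 * a ^ 3 - 27 * e)) ≤ B₁ := by
    refine (w.add_le _ _).trans ?_
    rw [map_mul]
    exact add_le_add (mul_le_mul_of_nonneg_left hx (w.nonneg _)) le_rfl
  have e2 : w ((2 * a ^ 2 - 6 * b) * x ^ 2 + ((2 * a ^ 3 - 7 * a * b + 9 * e) * x +
        (a ^ 2 * b + 3 * a * e - 4 * b ^ 2))) ≤ B₂ := by
    refine (w.add_le _ _).trans (add_le_add ?_ ((w.add_le _ _).trans (add_le_add ?_ le_rfl)))
    · rw [map_mul, map_pow]
      exact mul_le_mul_of_nonneg_left (pow_le_pow_left₀ hx0 hx 2) (w.nonneg _)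
    · rw [map_mul]
      exact mul_le_mul_of_nonneg_left hx (w.nonneg _)
  have e3 : d ≤ B₁ * w (x ^ 3 + a * x ^ 2 + b * x + e) +
      B₂ * w (3 * x ^ 2 + 2 * a * x + b) := by
    rw [hdd, key]
    refine (w.add_le _ _).trans ?_
    rw [map_mul, map_mul]
    exact add_le_add (mul_le_mul_of_nonneg_right e1 (w.nonneg _))
      (mul_le_mul_of_nonneg_right e2 (w.nonneg _))
  have e4 : B₁ * w (x ^ 3 + a * x ^ 2 + b * x + e) ≤ B₁ * (d / (B₁ + B₂ + 1)) :=
    mul_le_mul_of_nonneg_left h1'.le hB₁0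
  have e5 : B₂ * w (3 * x ^ 2 + 2 * a * x + b) ≤ B₂ * (d / (B₁ + B₂ + 1)) :=
    mul_le_mul_of_nonneg_left h2'.le hB₂0
  have e6 : d / (B₁ + B₂ + 1) * (B₁ + B₂ + 1) = d := div_mul_cancel₀ _ hden.ne'
  have e7 : 0 < d / (B₁ + B₂ + 1) := by positivity
  nlinarith

/-- from the slope to the abscissa -/
private theorem clo_l {L : Type} [Field L] {w : AbsoluteValue L ℝ} {c δ M : ℝ} {g y : L}
    (hc : 0 < c) (hMd : M * δ ^ 2 < c ^ 2) (hg : c ≤ w g) (hy0 : y ≠ 0)
    (hy : w y ≤ δ) : M < w ((g / y) ^ 2) := by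
  have hy1 : 0 < w y := w.pos hy0
  rw [map_pow, map_div₀, div_pow, lt_div_iff₀ (by positivity)]
  have h1 : c ^ 2 ≤ w g ^ 2 := pow_le_pow_left₀ hc.le hg 2
  have h2 : w y ^ 2 ≤ δ ^ 2 := pow_le_pow_left₀ hy1.le hy 2
  rcases le_or_gt 0 M with hM | hM
  · have h3 : M * w y ^ 2 ≤ M * δ ^ 2 := mul_le_mul_of_nonneg_left h2 hM
    linarith
  · have h3 : M * w y ^ 2 ≤ 0 := mul_nonpos_of_nonpos_of_nonneg hM.le (sq_nonneg _)
    have h4 : 0 < c ^ 2 := by positivity
    linarith

theorem tClo (h1 : S_Pts) (h2 : S_Na) : S_Clo := by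
  intro p hp hp2 L _ _ W hW w M
  have hw := h2 p L w
  have hw2 : w 2 = 1 := clo_two p hp2 w
  have hL : (2 : L) ≠ 0 := by
    intro h
    rw [h, map_zero] at hw2
    exact zero_ne_one hw2
  obtain ⟨_, p2, _, p4, p5, _, p7, p8, p9, _⟩ := h1 L hL W hW
  have hΔ : W.a₂ ^ 2 * W.a₄ ^ 2 - 4 * W.a₄ ^ 3 - 4 * W.a₂ ^ 3 * W.a₆ +
      18 * W.a₂ * W.a₄ * W.a₆ - 27 * W.a₆ ^ 2 ≠ 0 := by
    intro h
    apply hW.dis.ne_zero
    rw [WeierstrassCurve.Δ, WeierstrassCurve.b₂, WeierstrassCurve.b₄, WeierstrassCurve.b₆,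
      WeierstrassCurve.b₈, hW.a1, hW.a3]
    linear_combination 16 * h
  set N := max (max M 1) (max (w W.a₂) (max (w W.a₄) (w W.a₆))) with hN
  have hMN : M ≤ N := (le_max_left _ _).trans (le_max_left _ _)
  have hN1 : 1 ≤ N := (le_max_right M 1).trans (le_max_left _ _)
  have hNa : w W.a₂ ≤ N := (le_max_left _ _).trans (le_max_right _ _)
  have hN0 : 0 < N := by linarith
  obtain ⟨c, hc, hc1, hcf⟩ := clo_a w W.a₂ W.a₄ W.a₆ hΔ N hN0.le
  set δ := c / (2 * N) with hδ
  have hδ0 : 0 < δ := by positivity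
  have hNδ : N * δ = c / 2 := by
    rw [hδ]
    field_simp
  have hδc : δ ≤ c / 2 := by nlinarith
  have hδ2 : N * δ ^ 2 < c ^ 2 := by nlinarith
  have hδ3 : δ ^ 2 < c := by nlinarith
  refine ⟨δ, hδ0, ?_⟩
  intro P Q x y x' y' hP hQ hx hy hx' hy' hxx hyy
  have hx := hx.trans hMN
  have hx' := hx'.trans hMN
  obtain ⟨_, _, _, ey⟩ := p2 P x y hP
  obtain ⟨_, _, _, ey'⟩ := p2 Q x' y' hQ
  have nQ := p5 Q x' y' hQ
  have hwf : w (x ^ 3 + W.a₂ * x ^ 2 + W.a₄ * x + W.a₆) = w y ^ 2 := by rw [← ey, map_pow]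
  rw [sub_eq_add_neg P Q]
  by_cases hxe : x = x'
  · subst hxe
    have h3 : (y' - y) * (y' + y) = 0 := by linear_combination ey' - ey
    rcases mul_eq_zero.1 h3 with h4 | h4
    · have h5 : y' = y := sub_eq_zero.1 h4
      subst h5
      left
      rw [p4 P Q _ _ hP hQ, add_neg_cancel]
    · have h5 : -y' = y := by linear_combination -h4
      rw [h5] at nQ
      have h6 : -Q = P := p4 _ _ _ _ nQ hP
      rw [h6]
      by_cases hy0 : y = 0
      · left
        rw [hy0] at hP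
        exact p9 P x hP
      · right
        have h7 : w y ≤ δ := by
          have h8 : y - y' = 2 * y := by linear_combination h5
          rw [h8, map_mul, hw2, one_mul] at hyy
          exact hyy
        have h8 : c ≤ w (3 * x ^ 2 + 2 * W.a₂ * x + W.a₄) := by
          rcases hcf x hx with h9 | h9
          · exfalso
            rw [hwf] at h9
            have h10 : w y ^ 2 ≤ δ ^ 2 := pow_le_pow_left₀ (w.nonneg _) h7 2
            linarith
          · exact h9
        refine ⟨_, _, p8 P x y _ hP hy0 rfl, ?_⟩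
        have h9 : w (2 * y) ≤ δ := by rw [map_mul, hw2, one_mul]; exact h7
        have h10 := clo_l hc hδ2 h8 (mul_ne_zero hL hy0) h9
        have h11 := clo_big hw h10 (clo_add hw hNa (clo_add hw hx hx))
        refine lt_of_le_of_lt hMN (lt_of_lt_of_eq h11 (congrArg w ?_))
        ring
  · right
    refine ⟨_, _, p7 P (-Q) x y x' (-y') _ hP nQ hxe rfl, ?_⟩
    have hxd : x - x' ≠ 0 := sub_ne_zero.2 hxe
    have key : N < w (((y - -y') / (x - x')) ^ 2) := by
      set g := x ^ 2 + x * x' + x' ^ 2 + W.a₂ * (x + x') + W.a₄ with hg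
      have hgy : (y - y') * (y + y') = (x - x') * g := by
        rw [hg]
        linear_combination ey - ey'
      by_cases hf : c ≤ w (x ^ 3 + W.a₂ * x ^ 2 + W.a₄ * x + W.a₆)
      · rw [hwf] at hf
        have h3 : δ < w y := by
          by_contra hcon
          push Not at hcon
          have h10 : w y ^ 2 ≤ δ ^ 2 := pow_le_pow_left₀ (w.nonneg _) hcon 2
          linarith
        have h4 : w y ≤ w (y - -y') := by
          by_contra hcon
          push Not at hcon
          have h5 : 2 * y = (y - -y') + (y - y') := by ring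
          have h6 : w (2 * y) = w y := by rw [map_mul, hw2, one_mul]
          have h7 : w (2 * y) < w y := by
            rw [h5]
            exact lt_of_le_of_lt (hw _ _) (max_lt hcon (hyy.trans_lt h3))
          linarith
        rw [map_pow, map_div₀, div_pow, lt_div_iff₀ (pow_pos (w.pos hxd) 2)]
        have h5 : w (x - x') ^ 2 ≤ δ ^ 2 := pow_le_pow_left₀ (w.nonneg _) hxx 2
        have h6 : w y ^ 2 ≤ w (y - -y') ^ 2 := pow_le_pow_left₀ (w.nonneg _) h4 2
        have h7 : N * w (x - x') ^ 2 ≤ N * δ ^ 2 := mul_le_mul_of_nonneg_left h5 hN0.le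
        have h8 : c ^ 2 ≤ c := by nlinarith
        linarith
      · have hf' : c ≤ w (3 * x ^ 2 + 2 * W.a₂ * x + W.a₄) := by
          rcases hcf x hx with h9 | h9
          · exact absurd h9 hf
          · exact h9
        have h3 : w (g - (3 * x ^ 2 + 2 * W.a₂ * x + W.a₄)) < c := by
          have h4 : g - (3 * x ^ 2 + 2 * W.a₂ * x + W.a₄) =
              -((x - x') * (x + (x + (x' + W.a₂)))) := by
            rw [hg]
            ring
          rw [h4, w.map_neg, map_mul]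
          have h5 : w (x + (x + (x' + W.a₂))) ≤ N :=
            clo_add hw hx (clo_add hw hx (clo_add hw hx' hNa))
          have h6 : w (x - x') * w (x + (x + (x' + W.a₂))) ≤ δ * N :=
            mul_le_mul hxx h5 (w.nonneg _) hδ0.le
          nlinarith
        have h4 : c ≤ w g := by
          by_contra hcon
          push Not at hcon
          have h5 : 3 * x ^ 2 + 2 * W.a₂ * x + W.a₄ =
              g + -(g - (3 * x ^ 2 + 2 * W.a₂ * x + W.a₄)) := by ring
          rw [h5] at hf'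
          have h6 := hw g (-(g - (3 * x ^ 2 + 2 * W.a₂ * x + W.a₄)))
          rw [w.map_neg] at h6
          exact absurd (h6.trans_lt (max_lt hcon h3)) (not_lt.2 hf')
        have hg0 : g ≠ 0 := by
          intro h
          rw [h, map_zero] at h4
          linarith
        have hyd : y - y' ≠ 0 := by
          intro h
          rw [h, zero_mul] at hgy
          exact mul_ne_zero hxd hg0 hgy.symm
        have h5 : (y - -y') / (x - x') = g / (y - y') := by
          rw [div_eq_div_iff hxd hyd]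
          linear_combination hgy
        rw [h5]
        exact clo_l hc hδ2 h4 hyd hyy
    have h11 := clo_big hw key (clo_add hw hNa (clo_add hw hx hx'))
    refine lt_of_le_of_lt hMN (lt_of_lt_of_eq h11 (congrArg w ?_))
    ring

end Pool.Agent.MP72P
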