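import Pool.Agent.Lib.MP_72e2e6_nt.P3.EN.Spec

/-!
# MP_72e2e6_nt, theorem T3p, block EN: bounded sets are covered by finitely many small balls
-/

namespace Pool.Agent.MP72P

open Polynomial WeierstrassCurve
open Pool.Agent.MP72W (pmap)
open Pool.Agent.MP72V

open scoped Classical

private theorem cvr_lt {p : ℕ} {L : Type} [Field L] {w : AbsoluteValue L ℝ} {Q : ℕ} {ϖ : L}
    {R : Finset L} (h : LF w p Q ϖ R) (x : L) (hx : w x < 1) : w x ≤ w ϖ := by
  rcases eq_or_ne x 0 with rfl | hx0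
  · rw [map_zero]
    exact h.pi0.le
  · obtain ⟨n, hn⟩ := h.disc x hx0
    rw [hn] at hx ⊢
    have hn1 : 1 ≤ n := by
      by_contra hc
      have hn0 : n ≤ 0 := by omega
      have h2 : (1 : ℝ) ≤ w ϖ ^ n := by
        have := zpow_le_zpow_right_of_le_one₀ h.pi0 h.pi1.le hn0
        simpa using this
      linarith
    have := zpow_le_zpow_right_of_le_one₀ h.pi0 h.pi1.le hn1
    simpa using this

private theorem cvr_net {p : ℕ} {L : Type} [Field L] {w : AbsoluteValue L ℝ} {Q : ℕ} {ϖ : L}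
    {R : Finset L} (h : LF w p Q ϖ R) (b : ℕ) :
    ∃ X : Finset L, ∀ x : L, w x ≤ 1 → ∃ s ∈ X, w (x - s) ≤ w ϖ ^ b := by
  induction b with
  | zero =>
    refine ⟨{0}, fun x hx => ⟨0, Finset.mem_singleton_self 0, ?_⟩⟩
    simpa using hx
  | succ b ih =>
    obtain ⟨X, hX⟩ := ih
    refine ⟨(X ×ˢ R).image (fun q => q.1 + ϖ ^ b * q.2), fun x hx => ?_⟩
    obtain ⟨s, hs, hxs⟩ := hX x hx
    have hϖ : ϖ ≠ 0 := by
      intro h0
      have := h.pi0
      rw [h0, map_zero] at this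
      exact lt_irrefl _ this
    have hb : (0 : ℝ) < w ϖ ^ b := pow_pos h.pi0 b
    have hy : w ((x - s) / ϖ ^ b) ≤ 1 := by
      rw [map_div₀, map_pow, div_le_one hb]
      exact hxs
    obtain ⟨r, hr, hyr⟩ := h.cov _ hy
    have hyr' := cvr_lt h _ hyr
    refine ⟨s + ϖ ^ b * r, Finset.mem_image.2 ⟨(s, r), Finset.mem_product.2 ⟨hs, hr⟩, rfl⟩, ?_⟩
    have he : x - (s + ϖ ^ b * r) = ϖ ^ b * ((x - s) / ϖ ^ b - r) := by
      field_simp
      ring
    rw [he, map_mul, map_pow, pow_succ]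
    exact mul_le_mul_of_nonneg_left hyr' hb.le

theorem tCvr : S_Cvr := by
  intro p L _ w Q ϖ R h M δ hδ
  obtain ⟨a, ha⟩ := exists_pow_lt_of_lt_one (show (0 : ℝ) < 1 / (|M| + 1) by positivity) h.pi1
  have hpa : (0 : ℝ) < w ϖ ^ a := pow_pos h.pi0 a
  obtain ⟨b, hb⟩ := exists_pow_lt_of_lt_one (mul_pos hδ hpa) h.pi1
  obtain ⟨X, hX⟩ := cvr_net h b
  let e : X ≃ Fin X.card := X.equivFin
  have hM : ∀ x : L, w x ≤ M → ∃ s ∈ X, w (ϖ ^ a * x - s) ≤ w ϖ ^ b := by
    intro x hx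
    apply hX
    rw [map_mul, map_pow]
    have h1 : w x ≤ |M| + 1 := hx.trans ((le_abs_self M).trans (by linarith))
    have h2 : (0 : ℝ) < |M| + 1 := by positivity
    calc w ϖ ^ a * w x ≤ 1 / (|M| + 1) * (|M| + 1) :=
          mul_le_mul ha.le h1 (w.nonneg x) (by positivity)
      _ = 1 := by field_simp
  refine ⟨X.card, fun x => if hx : ∃ s ∈ X, w (ϖ ^ a * x - s) ≤ w ϖ ^ b then
    (e ⟨hx.choose, hx.choose_spec.1⟩).castSucc else Fin.last _, fun x x' hx hx' hc => ?_⟩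
  have h1 := hM x hx
  have h2 := hM x' hx'
  simp only [dif_pos h1, dif_pos h2] at hc
  have hc2 := e.injective (Fin.castSucc_injective _ hc)
  have hc3 : h1.choose = h2.choose := congrArg Subtype.val hc2
  have e1 := h1.choose_spec.2
  have e2 := h2.choose_spec.2
  rw [← hc3] at e2
  have hsub : ϖ ^ a * (x - x') =
      (ϖ ^ a * x - h1.choose) + -(ϖ ^ a * x' - h1.choose) := by ring
  have hle : w (ϖ ^ a * (x - x')) ≤ w ϖ ^ b := by
    rw [hsub]
    refine (h.na _ _).trans (max_le e1 ?_)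
    rw [w.map_neg]
    exact e2
  rw [map_mul, map_pow] at hle
  have h3 : w ϖ ^ a * w (x - x') ≤ w ϖ ^ a * δ := by
    refine hle.trans (hb.le.trans ?_)
    rw [mul_comm]
  exact le_of_mul_le_mul_left h3 hpa

end Pool.Agent.MP72P
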