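import Pool.Agent.Lib.MP_72e2e6_nt.P3.EN.Spec

/-!
# MP_72e2e6_nt, theorem T3p, block EN: EN, the endgame
-/

set_option autoImplicit false

namespace Pool.Agent.MP72P

open Polynomial WeierstrassCurve
open Pool.Agent.MP72W (pmap)
open Pool.Agent.MP72V

open scoped Classical

private theorem en_two (p : ℕ) [hp : Fact p.Prime] (hp2 : p ≠ 2) (K : Type) [Field K] [CharP K p] :
    (2 : K) ≠ 0 := by
  intro h
  have h' : ((2 : ℕ) : K) = 0 := by exact_mod_cast h
  rw [CharP.cast_eq_zero_iff K p] at h'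
  rcases (Nat.dvd_prime Nat.prime_two).1 h' with h'' | h''
  · exact hp.out.one_lt.ne' h''
  · exact hp2 h''

section

variable {K : Type} [Field K] (W : WeierstrassCurve K) {L M : Type} [Field L] [Field M]
  [Algebra K L] [Algebra K M]

private theorem en_padd [I : DecidableEq L] [J : DecidableEq M] (f : L →ₐ[K] M)
    (P Q : (W⁄L).toAffine.Point) : pmap W f (P + Q) = pmap W f P + pmap W f Q := by
  obtain rfl : I = fun a b => Classical.propDecidable (a = b) := Subsingleton.elim _ _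
  obtain rfl : J = fun a b => Classical.propDecidable (a = b) := Subsingleton.elim _ _
  exact map_add (pmap W f) P Q

private theorem en_pneg (f : L →ₐ[K] M)
    (P : (W⁄L).toAffine.Point) : pmap W f (-P) = -pmap W f P := by
  exact map_neg (pmap W f) P

private theorem en_core (h4 : S_Bas) (h5 : S_Ntm) (h6 : S_Dvi) (p : ℕ) [hp : Fact p.Prime]
    (hp2 : p ≠ 2) [CharP K p] (hW : IsNf W) [J : DecidableEq M] (f : L →ₐ[K] M)
    (w : AbsoluteValue L ℝ) (Q : ℕ) (ϖ : L) (R : Finset L) (hLF : LF w p Q ϖ R)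
    (X : Set (ZMod p → (W⁄M).toAffine.Point)) (h0 : (0 : ZMod p → (W⁄M).toAffine.Point) ∈ X)
    (hadd : ∀ u ∈ X, ∀ v ∈ X, u + v ∈ X) (hneg : ∀ u ∈ X, -u ∈ X)
    (hL : ∀ v ∈ X, ∃ P : ZMod p → (W⁄L).toAffine.Point, ∀ i, pmap W f (P i) = v i)
    (k : ℕ) (hk : 1 ≤ k) (hdiv : ∀ v ∈ X, ∃ u ∈ X, p ^ (k - 1) • v = p ^ k • u) : X.Finite := by
  obtain rfl : J = fun a b => Classical.propDecidable (a = b) := Subsingleton.elim _ _
  have h20 : (2 : K) ≠ 0 := en_two p hp2 K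
  obtain ⟨m, hm1, hm⟩ := h6 p hp2 K W hW L w Q ϖ R hLF
  obtain ⟨-, -, -, -, -, bmap⟩ := h4.1 K h20 W hW L
  obtain ⟨-, binj, -, -⟩ := bmap K M f
  -- the groups
  have hkey : ∀ i : ZMod p, ∀ v ∈ X, (m * p ^ (k - 1)) • v i = 0 := by
    intro i
    let G' : AddSubgroup (W⁄L).toAffine.Point :=
      { carrier := {P | ∃ v ∈ X, pmap W f P = p ^ (k - 1) • v i}
        add_mem' := by
          rintro P P' ⟨v, hv, hP⟩ ⟨v', hv', hP'⟩
          exact ⟨v + v', hadd _ hv _ hv', by rw [map_add, hP, hP', Pi.add_apply, nsmul_add]⟩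
        zero_mem' := ⟨0, h0, by rw [map_zero, Pi.zero_apply, nsmul_zero]⟩
        neg_mem' := by
          rintro P ⟨v, hv, hP⟩
          exact ⟨-v, hneg _ hv, by rw [map_neg, hP, Pi.neg_apply, smul_neg]⟩ }
    have hG' : ∀ P ∈ G', ∃ P' ∈ G', p • P' = P := by
      rintro P ⟨v, hv, hP⟩
      obtain ⟨u, hu, huv⟩ := hdiv v hv
      obtain ⟨Pu, hPu⟩ := hL u hu
      refine ⟨p ^ (k - 1) • Pu i, ⟨u, hu, by rw [map_nsmul, hPu]⟩, ?_⟩
      apply binj
      rw [map_nsmul, map_nsmul, hPu, hP]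
      have h8 := congrFun huv i
      rw [Pi.smul_apply, Pi.smul_apply] at h8
      rw [h8, ← mul_nsmul, ← pow_succ, Nat.sub_add_cancel hk]
    intro v hv
    obtain ⟨Pv, hPv⟩ := hL v hv
    have h8 : p ^ (k - 1) • Pv i ∈ G' := ⟨v, hv, by rw [map_nsmul, hPv]⟩
    have h9 := hm G' hG' _ h8
    have h10 := congrArg (pmap W f) h9
    rw [map_nsmul, map_nsmul, hPv, map_zero] at h10
    rw [mul_comm, mul_nsmul]
    exact h10
  have hfin := h5 K h20 W hW M (m * p ^ (k - 1))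
    (Nat.one_le_iff_ne_zero.2 (mul_ne_zero (by omega) (pow_ne_zero _ hp.out.ne_zero)))
  refine (Set.Finite.pi' (fun _ : ZMod p => hfin)).subset ?_
  intro v hv i
  exact hkey i v hv

end

section

variable {K : Type} [Field K] (W : WeierstrassCurve K) {p : ℕ} [Fact p.Prime]
  (h : Gal(Kgs K/K) → ZMod p)

private theorem en_zero : (0 : ZMod p → (W⁄(Kgs K)).toAffine.Point) ∈ RatV W h := by
  refine ⟨by simp, fun σ => ?_⟩
  funext i
  rw [tac, Pi.zero_apply, Pi.zero_apply, map_zero]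

private theorem en_add {u v : ZMod p → (W⁄(Kgs K)).toAffine.Point} (hu : u ∈ RatV W h)
    (hv : v ∈ RatV W h) : u + v ∈ RatV W h := by
  refine ⟨?_, fun σ => ?_⟩
  · simp only [Pi.add_apply]
    rw [Finset.sum_add_distrib, hu.1, hv.1, add_zero]
  · funext i
    have h1 := congrFun (hu.2 σ) i
    have h2 := congrFun (hv.2 σ) i
    rw [tac] at h1 h2 ⊢
    rw [Pi.add_apply, Pi.add_apply, en_padd, h1, h2]

private theorem en_neg {u : ZMod p → (W⁄(Kgs K)).toAffine.Point} (hu : u ∈ RatV W h) :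
    -u ∈ RatV W h := by
  refine ⟨?_, fun σ => ?_⟩
  · simp only [Pi.neg_apply]
    rw [Finset.sum_neg_distrib, hu.1, neg_zero]
  · funext i
    have h1 := congrFun (hu.2 σ) i
    rw [tac] at h1 ⊢
    rw [Pi.neg_apply, Pi.neg_apply, en_pneg, h1]

end

/-- **EN**. The endgame. -/
theorem tEN (h1 : S_Plc) (h2 : S_Dsc) (h3 : S_Gfl) (h4 : S_Bas) (h5 : S_Ntm) (h6 : S_Dvi)
    (h7 : S_Fxh) : S_EN := by
  intro p hp hp2 K _ _ hK W hW h hh k hk hdiv
  obtain ⟨L, hLf, hL⟩ := h7 p hp2 K W hW h hh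
  have hcL : CharP L p := charP_of_injective_algebraMap (algebraMap K L).injective p
  have hGL : GFld p L := h3 p K L hK
  obtain ⟨w, hw⟩ := h1 p L hGL
  obtain ⟨Q, ϖ, R, hLF⟩ := h2 p L hGL w hw
  exact en_core W h4 h5 h6 p hp2 hW L.val w Q ϖ R hLF (RatV W h) (en_zero W h)
    (fun u hu v hv => en_add W h hu hv) (fun u hu => en_neg W h hu) hL k hk hdiv

end Pool.Agent.MP72P
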