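import Pool.Agent.Lib.MP_72e2e6_nt.P3.EN.Spec

/-!
# MP_72e2e6_nt, block EN: the vectors in `RatV` have components over a finite extension
-/

namespace Pool.Agent.MP72P

open Polynomial WeierstrassCurve
open Pool.Agent.MP72W (pmap)
open Pool.Agent.MP72V

open scoped Classical

theorem tFxh (h1 : S_Bas) : S_Fxh := by
  intro p _ hp2 K _ _ W hW h hh
  have h20 : (2 : K) ≠ 0 := by
    intro h2
    have h2' : ((2 : ℕ) : K) = 0 := by exact_mod_cast h2
    rw [CharP.cast_eq_zero_iff K p] at h2'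
    exact hp2 ((Nat.prime_dvd_prime_iff_eq (Fact.out : p.Prime) Nat.prime_two).mp h2')
  have h0 : h 1 = 0 := by
    have := hh.add 1 1
    rw [mul_one] at this
    exact left_eq_add.mp this
  have hop : IsOpen (h ⁻¹' {0}) := hh.loc.isOpen_fiber 0
  have hn : h ⁻¹' {0} ∈ nhds (1 : Gal(Kgs K/K)) := hop.mem_nhds h0
  obtain ⟨L, hL, hLs⟩ := (krullTopology_mem_nhds_one_iff K (Kgs K) _).mp hn
  refine ⟨L, hL, fun v hv => ?_⟩
  have hfix : ∀ σ ∈ L.fixingSubgroup, ∀ i, pmap W (σ : Kgs K →ₐ[K] Kgs K) (v i) = v i := by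
    intro σ hσ i
    have e := congrFun (hv.2 σ) i
    have hσ0 : h σ = 0 := hLs hσ
    rw [hσ0] at e
    unfold tac at e
    rw [sub_zero] at e
    exact e
  have hmem : ∀ x : Kgs K, (∀ σ ∈ L.fixingSubgroup, σ x = x) → x ∈ L := by
    intro x hx
    rw [← InfiniteGalois.fixedField_fixingSubgroup L, IntermediateField.mem_fixedField_iff]
    exact hx
  obtain ⟨-, -, -, -, -, hB⟩ := h1.1 K h20 W hW (Kgs K)
  obtain ⟨-, -, -, -, -, hB'⟩ := h1.1 K h20 W hW L
  have key : ∀ Q : (W⁄(Kgs K)).toAffine.Point,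
      (∀ σ ∈ L.fixingSubgroup, pmap W (σ : Kgs K →ₐ[K] Kgs K) Q = Q) →
      ∃ P : (W⁄L).toAffine.Point, pmap W L.val P = Q := by
    intro Q hQ
    by_cases hQ0 : Q = 0
    · exact ⟨0, by rw [hQ0, map_zero]⟩
    · have hx : px Q ∈ L := hmem _ fun σ hσ => by
        have e := ((hB K (Kgs K) (σ : Kgs K →ₐ[K] Kgs K)).2.2.1 Q).1
        rw [hQ σ hσ] at e
        exact e.symm
      have hy : py Q ∈ L := hmem _ fun σ hσ => by
        have e := ((hB K (Kgs K) (σ : Kgs K →ₐ[K] Kgs K)).2.2.1 Q).2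
        rw [hQ σ hσ] at e
        exact e.symm
      have hXY : XY Q (px Q) (py Q) := by
        rcases Q with _ | ⟨x, y, hxy⟩
        · exact absurd rfl hQ0
        · exact ⟨hxy, rfl⟩
      obtain ⟨P, -, hP⟩ := (hB' K (Kgs K) L.val).2.2.2 Q ⟨px Q, hx⟩ ⟨py Q, hy⟩ hXY
      exact ⟨P, hP⟩
  choose P hP using fun i => key (v i) fun σ hσ => hfix σ hσ i
  exact ⟨P, hP⟩

end Pool.Agent.MP72P
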