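import Pool.Agent.Lib.MP_72e2e6_nt.P3.EN.Spec

/-!
# MP_72e2e6_nt, theorem T3p, block EN: module Nbh (near `O` the multiplication by `p` enlarges the
abscissa)
-/

set_option autoImplicit false

namespace Pool.Agent.MP72P

open Polynomial WeierstrassCurve
open Pool.Agent.MP72W (pmap)
open Pool.Agent.MP72V

open scoped Classical

/-- The growth of a polynomial. -/
private theorem nbh_le {K L : Type} [Field K] [Field L] [Algebra K L] (w : AbsoluteValue L ℝ)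
    (B : K[X]) (n : ℕ) (hn : B.natDegree ≤ n) :
    ∃ C : ℝ, 0 ≤ C ∧ ∀ z : L, 1 ≤ w z → w (aeval z B) ≤ C * w z ^ n := by
  refine ⟨∑ i ∈ Finset.range (n + 1), w (algebraMap K L (B.coeff i)),
    Finset.sum_nonneg fun i _ => w.nonneg _, fun z hz => ?_⟩
  rw [Polynomial.aeval_eq_sum_range' (Nat.lt_succ_of_le hn)]
  refine (w.sum_le _ _).trans ?_
  rw [Finset.sum_mul]
  refine Finset.sum_le_sum fun i hi => ?_
  rw [Algebra.smul_def, map_mul, map_pow]
  refine mul_le_mul_of_nonneg_left ?_ (w.nonneg _)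
  exact pow_le_pow_right₀ hz (Nat.le_of_lt_succ (Finset.mem_range.1 hi))

theorem tNbh (h1 : S_Pts) (h2 : S_Bas) (_h3 : S_Deg) (h4 : S_Mul) (h5 : S_Pw) (_h6 : S_Na) :
    S_Nbh := by
  intro p hp hp2 K _ _ W hW L _ _ w
  have hK : (2 : K) ≠ 0 := by
    intro h
    have h3 : ((2 : ℕ) : K) = 0 := by exact_mod_cast h
    rw [CharP.cast_eq_zero_iff K p] at h3
    exact hp2 ((Nat.prime_dvd_prime_iff_eq hp.out Nat.prime_two).1 h3)
  obtain ⟨hL, hWL, _⟩ := h2.1 K hK W hW L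
  obtain ⟨p1, p2, _, p4, _⟩ := h1 L hL _ hWL
  obtain ⟨m1, _, _⟩ := h4 K hK W hW p
  obtain ⟨⟨A, Ps, hPs⟩, h6⟩ := h5 p hp2 K W hW
  obtain ⟨hAm, hAd, _, hPd, _⟩ := h6 A Ps hPs
  have hp3 : 2 ≤ p := hp.out.two_le
  -- the lower terms of `A`
  have hA : A = X ^ p + A.eraseLead := by
    have e := A.eraseLead_add_monomial_natDegree_leadingCoeff
    rw [hAm.leadingCoeff, hAd, Polynomial.monomial_one_right_eq_X_pow] at e
    rw [add_comm]
    exact e.symm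
  have hB : A.eraseLead.natDegree ≤ p - 1 := by
    have e := A.eraseLead_natDegree_le
    rwa [hAd] at e
  obtain ⟨C₁, hC₁, hB1⟩ := nbh_le (L := L) w A.eraseLead (p - 1) hB
  obtain ⟨C₂, hC₂, hP1⟩ := nbh_le (L := L) w Ps ((p - 1) / 2) hPd
  refine ⟨4 * C₂ ^ 2 + 2 * C₁ + 1, by nlinarith [sq_nonneg C₂], ?_⟩
  intro P x y hP hx
  have hx1 : 1 ≤ w x := by nlinarith [sq_nonneg C₂]
  set z := x ^ p with hz
  have hwz : w z = w x ^ p := by rw [hz, map_pow]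
  have hz2 : w x ^ 2 ≤ w z := by
    rw [hwz]
    exact pow_le_pow_right₀ hx1 hp3
  have hz1 : w x ≤ w z := by nlinarith
  have hz0 : 1 ≤ w z := hx1.trans hz1
  have hR := m1 L P x y hP
  rw [hPs.num, hPs.den, Polynomial.expand_aeval, Polynomial.expand_aeval, map_pow, ← hz] at hR
  rcases p1 (p • P) with h0 | ⟨x', y', h'⟩
  · exact Or.inl h0
  refine Or.inr ⟨x', y', h', ?_⟩
  obtain ⟨_, hu⟩ := hR.aff x' y' h'
  -- the lower bound of the numerator
  have hlow : w z ^ p - C₁ * w z ^ (p - 1) ≤ w (aeval z A) := by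
    have e1 : z ^ p = aeval z A - aeval z A.eraseLead := by
      conv_rhs => rw [hA]
      rw [map_add, map_pow, aeval_X, ← hA]
      ring
    have e2 : w (z ^ p) ≤ w (aeval z A) + w (aeval z A.eraseLead) := by
      rw [e1]
      exact w.sub_le_add _ _
    rw [map_pow] at e2
    have e3 := hB1 z hz0
    linarith
  have hpp : w z ^ p = w z * w z ^ (p - 1) := by
    rw [← pow_succ', Nat.sub_add_cancel (by omega)]
  have hpos : 0 < w z ^ (p - 1) := pow_pos (by linarith) _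
  have hden : w (aeval z Ps) ^ 2 ≤ C₂ ^ 2 * w z ^ (p - 1) := by
    have e1 := hP1 z hz0
    have e2 : w (aeval z Ps) ^ 2 ≤ (C₂ * w z ^ ((p - 1) / 2)) ^ 2 :=
      pow_le_pow_left₀ (w.nonneg _) e1 2
    refine e2.trans ?_
    rw [mul_pow, ← pow_mul]
    refine mul_le_mul_of_nonneg_left ?_ (sq_nonneg _)
    exact pow_le_pow_right₀ hz0 (Nat.div_mul_le_self _ _)
  have e0 : w (aeval z Ps ^ 2) = w (aeval z Ps) ^ 2 := map_pow _ _ _
  rw [hu, map_mul, e0, hpp] at hlow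
  have hx'0 := w.nonneg x'
  have e4 : w x' * w (aeval z Ps) ^ 2 ≤ w x' * (C₂ ^ 2 * w z ^ (p - 1)) :=
    mul_le_mul_of_nonneg_left hden hx'0
  have e5 : (w z - C₁) * w z ^ (p - 1) ≤ (w x' * C₂ ^ 2) * w z ^ (p - 1) := by
    nlinarith
  have e6 : w z - C₁ ≤ w x' * C₂ ^ 2 := le_of_mul_le_mul_right e5 hpos
  -- the conclusion
  have e7 : w x ^ 2 - C₁ ≤ w x' * C₂ ^ 2 := by linarith
  by_contra hcon
  push Not at hcon
  have e8 : w x' * C₂ ^ 2 ≤ 2 * w x * C₂ ^ 2 :=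
    mul_le_mul_of_nonneg_right hcon.le (sq_nonneg _)
  have e9 : w x ^ 2 - C₁ ≤ 2 * w x * C₂ ^ 2 := e7.trans e8
  have e10 : w x * (4 * C₂ ^ 2 + 2 * C₁ + 1) < w x * w x :=
    mul_lt_mul_of_pos_left hx (by linarith)
  have e11 : 0 ≤ w x * C₂ ^ 2 := mul_nonneg (by linarith) (sq_nonneg _)
  have e12 : C₁ * 1 ≤ C₁ * w x := mul_le_mul_of_nonneg_left hx1 hC₁
  nlinarith

end Pool.Agent.MP72P
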