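import Pool.Agent.Lib.MP_72e2e6_nt.P3.EN.Spec

/-!
# MP_72e2e6_nt, theorem T3p, block EN: module Ntm (the torsion is finite)
-/

set_option autoImplicit false

namespace Pool.Agent.MP72P

open Polynomial WeierstrassCurve
open Pool.Agent.MP72W (pmap)
open Pool.Agent.MP72V

open scoped Classical

private theorem ntm_sq {L : Type} [Field L] (c : L) : {y : L | y ^ 2 = c}.Finite := by
  refine ((nthRoots 2 c).toFinset.finite_toSet).subset fun y hy => ?_
  rw [Finset.mem_coe, Multiset.mem_toFinset, Polynomial.mem_nthRoots (by norm_num)]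
  exact hy

theorem tNtm (h1 : S_Pts) (h2 : S_Bas) (h3 : S_Mul) : S_Ntm := by
  intro K _ hK W hW L _ _ n hn
  obtain ⟨hL, hWL, _⟩ := h2.1 K hK W hW L
  obtain ⟨p1, p2, _, p4, _⟩ := h1 L hL _ hWL
  obtain ⟨m1, m2, _⟩ := h3 K hK W hW n
  have hg : (mg W n).map (algebraMap K L) ≠ 0 :=
    (Polynomial.map_ne_zero_iff (algebraMap K L).injective).2 (m2 hn)
  let A : Set L := {x | aeval x (mg W n) = 0}
  have hA : A.Finite := by
    refine (((mg W n).map (algebraMap K L)).roots.toFinset.finite_toSet).subset fun x hx => ?_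
    rw [Finset.mem_coe, Multiset.mem_toFinset, Polynomial.mem_roots hg, Polynomial.IsRoot,
      Polynomial.eval_map_algebraMap]
    exact hx
  let f : L → L := fun x => x ^ 3 + (W⁄L).toAffine.a₂ * x ^ 2 + (W⁄L).toAffine.a₄ * x +
    (W⁄L).toAffine.a₆
  let T : Set (L × L) := ⋃ x ∈ A, {x} ×ˢ {y | y ^ 2 = f x}
  have hT : T.Finite := hA.biUnion fun x _ => (Set.finite_singleton x).prod (ntm_sq _)
  have hS : ({P : (W⁄L).toAffine.Point | n • P = 0} \ {0}).Finite := by
    refine Set.Finite.of_injOn (f := fun P => (px P, py P)) (t := T) ?_ ?_ hT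
    · rintro P ⟨hP, hP0⟩
      rcases p1 P with h | ⟨x, y, h⟩
      · exact absurd h hP0
      · obtain ⟨_, e1, e2, e3⟩ := p2 P x y h
        have hr := (m1 L P x y h).zero hP
        show (px P, py P) ∈ T
        rw [Set.mem_iUnion₂]
        refine ⟨x, hr, ?_⟩
        rw [e1, e2]
        exact ⟨rfl, e3⟩
    · rintro P ⟨_, hP0⟩ Q ⟨_, hQ0⟩ hPQ
      rcases p1 P with h | ⟨x, y, h⟩
      · exact absurd h hP0
      rcases p1 Q with h' | ⟨x', y', h'⟩
      · exact absurd h' hQ0
      obtain ⟨_, e1, e2, _⟩ := p2 P x y h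
      obtain ⟨_, e1', e2', _⟩ := p2 Q x' y' h'
      have e3 := congrArg Prod.fst hPQ
      have e4 := congrArg Prod.snd hPQ
      simp only at e3 e4
      rw [e1, e1'] at e3
      rw [e2, e2'] at e4
      subst e3 e4
      exact p4 P Q _ _ h h'
  exact (hS.union (Set.finite_singleton 0)).subset fun P hP => by
    by_cases h : P = 0
    · exact Or.inr h
    · exact Or.inl ⟨hP, h⟩

end Pool.Agent.MP72P
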