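import Pool.Agent.Lib.MP_72e2e6_nt.WP.El.Spec
import Pool.Agent.Lib.MP_72e2e6_nt.P3.E.Defs
import Pool.Agent.Lib.MP_72e2e6_nt.P3.N2.Spec

/-!
# MP_72e2e6_nt, theorem T3p, block EN: a divisible group of vectors of rational points is finite

The proofs are complete in the docstrings; every module is independent (used statements are
hypotheses): file `P3/EN/<Name>.lean` (import this file only) with `theorem t<Name> : S_<Name>` or
`theorem t<Name> (h1 : S_X) (h2 : S_Y) .. : S_<Name>` (in the order of the docstring), namespace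
`Pool.Agent.MP72P` (`open Pool.Agent.MP72V`), other declarations `private`. Use `open scoped Classical` (the
group structure on the points uses the classical decidable equality). No completions and no heights are
used: `w` is an absolute value of the field `L` itself; in characteristic `p` it is nonarchimedean
(`S_Na`), and `w (x + y) = w x` if `w y < w x`. `f(x) = x ^ 3 + a₂ x ^ 2 + a₄ x + a₆`.
-/

namespace Pool.Agent.MP72P

open Polynomial WeierstrassCurve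
open Pool.Agent.MP72W (pmap)
open Pool.Agent.MP72V

open scoped Classical

/-- **Ntm** (80 lines, uses `S_Pts`, `S_Bas`, `S_Mul`). The torsion is finite.

Proof. Let `P ≠ O`, `P = (x, y)`, `n P = O`. By `S_Mul` (1) and `Rp.zero` `g_n(x) = 0` (`g_n = mg W n ≠ 0` by `S_Mul` (2)),
so `x` is in the finite set of the roots of `g_n` in `L` (`Polynomial.rootSet_finite` or
`(g_n.map _).roots.toFinset`); `y ^ 2 = f(x)`, so there are finitely many `y`; a point is determined by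
`(x, y)` (`S_Pts` (4)). -/
def S_Ntm : Prop :=
  ∀ (K : Type) [Field K], (2 : K) ≠ 0 → ∀ W : WeierstrassCurve K, IsNf W →
    ∀ (L : Type) [Field L] [Algebra K L] (n : ℕ), 1 ≤ n →
      {P : (W⁄L).toAffine.Point | n • P = 0}.Finite

/-- **Nbh** (150 lines, uses `S_Pts`, `S_Bas`, `S_Deg`, `S_Mul`, `S_Pw`, `S_Na`). Near `O` the multiplication by
`p` enlarges the abscissa.

Proof. Let `IsPs W p A Ps` (`S_Pw`): `f_p = expand K p A`, `g_p = expand K p (Ps ^ 2)`, `A` monic of degree `p`,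
`natDegree Ps ≤ (p - 1) / 2`. Let `C ≥ 1` be greater than all `w` of the images of the coefficients of `A` and
`Ps`. For `z ∈ L` with `w z > C`: `w (A(z)) = (w z) ^ p` (the leading term dominates: `w (c_i z ^ i) ≤ C (w z) ^ (p - 1) <
(w z) ^ p` for `i < p`) and `w (Ps(z)) ≤ C (w z) ^ ((p - 1) / 2)`, so `w (Ps(z)) ^ 2 ≤ C ^ 2 (w z) ^ (p - 1)`. Let
`M = 2 C ^ 2` and `w x > M`, `z = x ^ p`, `w z ≥ w x > C`. By `S_Mul` (1): `Rp (p P) (A(z)) (Ps(z) ^ 2)`. If `p P ≠ O`,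
`p P = (x', y')`: `Ps(z) ≠ 0` and `A(z) = x' Ps(z) ^ 2`, so
`w x' ≥ (w z) ^ p / (C ^ 2 (w z) ^ (p - 1)) = w z / C ^ 2 = (w x) ^ p / C ^ 2 ≥ (w x) ^ 2 / C ^ 2 ≥ 2 w x`. -/
def S_Nbh : Prop :=
  ∀ (p : ℕ) [Fact p.Prime], p ≠ 2 → ∀ (K : Type) [Field K] [CharP K p]
    (W : WeierstrassCurve K), IsNf W → ∀ (L : Type) [Field L] [Algebra K L]
    (w : AbsoluteValue L ℝ), ∃ M₀ : ℝ, 1 ≤ M₀ ∧
      ∀ (P : (W⁄L).toAffine.Point) (x y : L), XY P x y → M₀ < w x →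
        p • P = 0 ∨ ∃ x' y' : L, XY (p • P) x' y' ∧ 2 * w x ≤ w x'

/-- **Clo** (200 lines, uses `S_Pts`, `S_Na`). The difference of two near points is near `O`.

Proof. `w 2 = 1` (`2 ^ (p - 1) = 1` in `L`). Let `M ≥ 1` be at least `w a₂`, `w a₄`, `w a₆` (enlarge `M`).
`f' = 3 x ^ 2 + 2 a₂ x + a₄`, `f[x, x'] = x ^ 2 + x x' + x' ^ 2 + a₂ (x + x') + a₄`, so
`f(x) - f(x') = (x - x') f[x, x']` and `f[x, x'] - f'(x) = (x' - x) (2 x + x' + a₂)`. (a) There is `c`, `0 < c ≤ 1`,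
with `c ≤ w (f(x))` or `c ≤ w (f'(x))` for all `x` with `w x ≤ M`: with `a = a₂`, `b = a₄`, `e = a₆`
`((18 b - 6 a ^ 2) x + (15 a b - 4 a ^ 3 - 27 e)) f(x) + ((2 a ^ 2 - 6 b) x ^ 2 + (2 a ^ 3 - 7 a b + 9 e) x +
(a ^ 2 b + 3 a e - 4 b ^ 2)) f'(x) = a ^ 2 b ^ 2 - 4 b ^ 3 - 4 a ^ 3 e + 18 a b e - 27 e ^ 2` (`ring`), and `16` times the right side
is `W.Δ ≠ 0` (unfold `Δ`, `b₂`, .., `ring`; both checked). Let `δ` be small: `δ < c`, `M δ < c`, `M δ ^ 2 < c ^ 2` (these imply all estimates below; note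
`c ^ 2 ≤ c`). Let `P = (x, y)`, `Q = (x', y')`. (b) `x = x'`: `y' = ± y`. If `y' = y` then `P - Q = O`. Otherwise `- Q = P` and
`2 y = y - y'`, `w y ≤ δ`, `y ≠ 0`, `w (f(x)) = (w y) ^ 2 ≤ δ ^ 2 < c`, so `w (f'(x)) ≥ c`, and `P - Q = P + P` has the abscissa
`l ^ 2 - a₂ - 2 x`, `l = f'(x) / (2 y)`, `w (l ^ 2) ≥ c ^ 2 / δ ^ 2 > M`, so its value is `w (l ^ 2)`. (c) `x ≠ x'`: the abscissa
of `P + (- Q)` is `l ^ 2 - a₂ - x - x'`, `l = (y + y') / (x - x')` (`S_Pts` (5), (7)), `(y - y') (y + y') = (x - x') f[x, x']`.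
If `w (f(x)) ≥ c`: `(w y) ^ 2 ≥ c`, `w y > δ` (`δ ^ 2 < c`), so `y + y' = 2 y - (y - y')` has the value `w y`, and
`w (l ^ 2) ≥ c / δ ^ 2 > M`. If `w (f(x)) < c`: `w (f'(x)) ≥ c` and `w (f[x, x']) ≥ c` as `w (f[x, x'] - f'(x)) ≤ M δ < c`; so
`y ≠ y'`, `l = f[x, x'] / (y - y')`, `w (l ^ 2) ≥ c ^ 2 / δ ^ 2 > M`. In both cases the value of the abscissa is `w (l ^ 2)`. -/
def S_Clo : Prop :=
  ∀ (p : ℕ) [Fact p.Prime], p ≠ 2 → ∀ (L : Type) [Field L] [CharP L p]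
    (W : WeierstrassCurve.Affine L), IsNf W → ∀ (w : AbsoluteValue L ℝ) (M : ℝ),
    ∃ δ : ℝ, 0 < δ ∧ ∀ (P Q : W.Point) (x y x' y' : L), XY P x y → XY Q x' y' →
      w x ≤ M → w y ≤ M → w x' ≤ M → w y' ≤ M → w (x - x') ≤ δ → w (y - y') ≤ δ →
      P - Q = 0 ∨ ∃ x'' y'' : L, XY (P - Q) x'' y'' ∧ M < w x''

/-- **Cvr** (100 lines). Bounded sets are covered by finitely many small balls.

Proof. By induction on `b` there is a finite set `X_b ⊆ L` such that for every `x` with `w x ≤ 1` there is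
`s ∈ X_b` with `w (x - s) ≤ (w ϖ) ^ b`: `X_0 = {0}`; if `w (x - s) ≤ (w ϖ) ^ b` let `x - s = ϖ ^ b y`, `w y ≤ 1`, `r ∈ R` with
`w (y - r) < 1` (`LF.cov`), so `w (y - r) ≤ w ϖ` (`LF.disc`), `X_{b+1} = {s + ϖ ^ b r}`. Let `a` be a natural number with
`M (w ϖ) ^ a ≤ 1`, and `b` with `(w ϖ) ^ b ≤ δ (w ϖ) ^ a`. For `w x ≤ M` let `cl x` be (the index of) an
`s ∈ X_b` with `w (ϖ ^ a x - s) ≤ (w ϖ) ^ b`. -/
def S_Cvr : Prop :=
  ∀ (p : ℕ) (L : Type) [Field L] (w : AbsoluteValue L ℝ) (Q : ℕ) (ϖ : L) (R : Finset L),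
    LF w p Q ϖ R → ∀ M δ : ℝ, 0 < δ → ∃ (N : ℕ) (cl : L → Fin (N + 1)),
      ∀ x x' : L, w x ≤ M → w x' ≤ M → cl x = cl x' → w (x - x') ≤ δ

/-- **Dvi** (250 lines, uses `S_Pts`, `S_Bas`, `S_Nbh`, `S_Clo`, `S_Cvr`). Divisible groups of points are
torsion groups.

Proof. Let `M₀` be as in `S_Nbh`. (a) If `P = (x, y)`, `w x > M₀`, then for all `j` `p ^ j P = O` or
`p ^ j P = (x', y')` with `w x' ≥ 2 ^ j w x` (induction). Let `M ≥ M₀` be such that `w y ≤ M` for all points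
`(x, y)` with `w x ≤ M₀` (`(w y) ^ 2 = w (f(x))` is bounded; `S_Pts` (2)), `δ` as in `S_Clo` for this `M`, `N` and
`cl` as in `S_Cvr`, `N' = (N + 1) ^ 2` and `m = ∏_{1 ≤ d ≤ N'} (p ^ d - 1) ≥ 1`. Let `P ∈ G'`; `P ≠ O` without loss of generality.
Choose `P_0 = P`, `P_i = p P_{i + 1}`, `P_i ∈ G'`, so `P_{i} = p ^ j P_{i + j}`; all `P_i ≠ O`, `P_i = (x_i, y_i)`. (b) For large `i`
`w x_i ≤ M₀`: otherwise `w x_0 ≥ 2 ^ i M₀ ≥ 2 ^ i` by (a). (c) Suppose that `(p ^ d - 1) P ≠ O` for all `1 ≤ d ≤ N'`, with the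
abscissae `z_d`, and let `n` be such that (b) holds for `i ≥ n` and `2 ^ n > w z_d` for all these `d`. Among
`P_n, .., P_{n + N'}` there are two, `P_i, P_j`, `i < j`, with `cl x_i = cl x_j` and `cl y_i = cl y_j` (pigeonhole).
By `S_Clo` `T = P_i - P_j = (p ^ (j - i) - 1) P_j` is `O` or has an abscissa with `w > M ≥ M₀`. In the first case
`(p ^ (j - i) - 1) P = p ^ j T = O`, a contradiction. In the second case by (a) `p ^ j T = (p ^ (j - i) - 1) P` is `O` or has an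
abscissa with `w ≥ 2 ^ j M₀ ≥ 2 ^ n`; a contradiction, `d = j - i`. So `(p ^ d - 1) P = O` for some `d ≤ N'`, and
`m P = O`. (The curve `W⁄L` satisfies `IsNf`, `S_Bas`; `CharP L p`.) -/
def S_Dvi : Prop :=
  ∀ (p : ℕ) [Fact p.Prime], p ≠ 2 → ∀ (K : Type) [Field K] [CharP K p]
    (W : WeierstrassCurve K), IsNf W → ∀ (L : Type) [Field L] [Algebra K L]
    (w : AbsoluteValue L ℝ) (Q : ℕ) (ϖ : L) (R : Finset L), LF w p Q ϖ R →
    ∃ m : ℕ, 1 ≤ m ∧ ∀ G' : AddSubgroup (W⁄L).toAffine.Point,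
      (∀ P ∈ G', ∃ P' ∈ G', p • P' = P) → ∀ P ∈ G', m • P = 0

/-- **Fxh** (100 lines, uses `S_Bas`). The vectors in `RatV` have components over a finite extension.

Proof. `h⁻¹ {0}` is an open subgroup of `Gal(K^s/K)` (`HomP`), so it contains the fixing subgroup of a finite
extension `L ⊆ K^s` of `K` (`krullTopology_mem_nhds_one_iff` or the like). Let `v ∈ RatV W h`. For `σ` fixing `L`:
`h σ = 0`, so `σ (v i) = v i` for all `i`. `K^s / K` is Galois, so the elements fixed by all `σ` fixing `L` are in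
`L` (`InfiniteGalois.fixedField_fixingSubgroup` or the like); the coordinates of `v i` (if `v i ≠ O`) are in `L`: use
the last statement of `S_Bas` for `f = L.val`. (`S_Bas` (1) gives the coordinates of `pmap W σ (v i)`.) -/
def S_Fxh : Prop :=
  ∀ (p : ℕ) [Fact p.Prime], p ≠ 2 → ∀ (K : Type) [Field K] [CharP K p]
    (W : WeierstrassCurve K), IsNf W → ∀ h : Gal(Kgs K/K) → ZMod p, HomP p h →
    ∃ L : IntermediateField K (Kgs K), FiniteDimensional K L ∧ ∀ v ∈ RatV W h,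
      ∃ P : ZMod p → (W⁄L).toAffine.Point, ∀ i, pmap W L.val (P i) = v i

/-- **EN** (150 lines, uses `S_Plc`, `S_Dsc`, `S_Gfl`, `S_Bas`, `S_Ntm`, `S_Dvi`, `S_Fxh`). THE ENDGAME.

Proof. Let `L` be as in `S_Fxh`, a global function field (`S_Gfl`), `w` a nontrivial absolute value of `L`
(`S_Plc`), `LF w p Q ϖ R` (`S_Dsc`), `m` as in `S_Dvi`. For `i ∈ ZMod p` let `G'_i` be the set of the `P ∈ W(L)` with
`pmap W L.val P = p ^ (k - 1) • v i` for some `v ∈ RatV W h`, a subgroup of `W(L)` (`RatV` is a group: `tac` is additive),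
`p G'_i = G'_i` by the hypothesis (`p ^ (k - 1) • v = p ^ k • u = p • (p ^ (k - 1) • u)`; the components of `u` are images of points of
`W(L)`, `pmap` is injective, `S_Bas`). So `m P = O` for `P ∈ G'_i`, and `(m * p ^ (k - 1)) • v i = 0` for all
`v ∈ RatV W h` and `i`. By `S_Ntm` (`Kgs K`, `n = m * p ^ (k - 1)`) `v i` is in a finite set: `Set.Finite.pi`. -/
def S_EN : Prop :=
  ∀ (p : ℕ) [Fact p.Prime], p ≠ 2 → ∀ (K : Type) [Field K] [CharP K p], GFld p K →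
    ∀ (W : WeierstrassCurve K), IsNf W → ∀ h : Gal(Kgs K/K) → ZMod p, HomP p h →
    ∀ k : ℕ, 1 ≤ k → (∀ v ∈ RatV W h, ∃ u ∈ RatV W h, p ^ (k - 1) • v = p ^ k • u) →
      (RatV W h).Finite

end Pool.Agent.MP72P
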